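import Pool.Agent.helper21.OE.SpecC
import Pool.Agent.helper63.OE.FCU

/-!
# MP_2e0e07_nt, project OE: row FCV (the factorisation through level one, with complex conjugation)
-/

set_option autoImplicit false

namespace Pool.Agent.OE

open MvPolynomial Matrix

section

variable {d t : ℤ} (hdt : IsEuc d t) {ℓ : ℕ} (hℓ : ℓ.Prime) {κ : Type} [Field κ]
  (π : Oz d t →+* κ) (hκ : ((ℓ : ℕ) : κ) = 0)

include hdt hℓ hκ

theorem FCV_sc (hEVT : EVT_stmt) (j : ℕ) (w : Sy d t κ) (hw : IsSym π j 1 (fun _ => 1) w) :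
    IsSc π j (ℓ ^ 1) (evS w) := by
  have h := hEVT d t hdt ℓ hℓ π hκ j 0 j (fun _ => 1) (fun x _ => one_mul _) w
    (by rw [pow_zero]; exact hw)
  rwa [max_eq_right (by omega)] at h

theorem FCV_LU (hEVT : EVT_stmt) (hCBU : CBU_stmt) (hCEV : CEV_stmt) (k j : ℕ) (w : Sy d t κ)
    (hw : IsSym π j 1 (fun _ => 1) w) : cj (FCU_LU π ℓ k w) = FCU_LU π ℓ k (cj w) := by
  have h1 := FCV_sc hdt hℓ π hκ hEVT j w hw
  change cj (bU π ℓ k (evS w)) = bU π ℓ k (evS (cj w))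
  rw [hCBU d t ℓ hℓ π hκ k j (evS w) h1, hCEV.1 w]

theorem FCV_LT (hEVT : EVT_stmt) (hCBT : CBT_stmt) (hCEV : CEV_stmt) {F : Finset (GO d t)}
    (hF : IsReps ℓ F) (k j : ℕ)
    (hcls : ∀ x : Oz d t, ¬ ((ℓ : ℕ) : ℤ) ∣ x.norm → π (x * star x) ^ k = π (x * star x) ^ j)
    (w : Sy d t κ) (hw : IsSym π j 1 (fun _ => 1) w) :
    cj (FCU_LT π ℓ F k w) = FCU_LT π ℓ F k (cj w) := by
  have h1 := FCV_sc hdt hℓ π hκ hEVT j w hw
  change cj (bT π ℓ F k (evS w)) = bT π ℓ F k (evS (cj w))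
  rw [hCBT d t hdt ℓ hℓ F hF π hκ k j hcls (evS w) h1, hCEV.1 w]

end

theorem FCV (hFUA : FUA_stmt) (hFUD : FUD_stmt) (hEVT : EVT_stmt) (hUSD : USD_stmt) (hBJH : BJH_stmt) (hTSU : TSU_stmt) (hKZE : KZE_stmt) (hCBU : CBU_stmt) (hCBT : CBT_stmt) (hCEV : CEV_stmt) : FCV_stmt := by
  intro d t hdt ℓ hℓ hℓ2 F hF κ _ π hκ k r j χ hj hper hcls n
  rcases Nat.eq_zero_or_pos r with rfl | hr
  · have hχ : ∀ x, χ x = 1 := fun x => by
      rw [hper x 1 (by simp), map_one]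
    have hφ1 (φ : Sy d t κ) (hφ : IsSym π k (ℓ ^ 0) χ φ) : IsSym π k 1 (fun _ => 1) φ := by
      have h1 : (χ : Oz d t → κ) = fun _ => 1 := funext hχ
      rwa [h1, pow_zero] at hφ
    rcases Nat.eq_zero_or_pos k with rfl | hk
    · refine ⟨0, 0, fun w _ => ?_, fun φ hφ => ?_⟩
      · rw [LinearMap.zero_apply, LinearMap.zero_apply, map_zero]
      have h2 : (2 : κ) ≠ 0 := by
        intro h2
        have hc : IsCoprime (2 : ℤ) (ℓ : ℤ) := by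
          exact_mod_cast Nat.isCoprime_iff_coprime.2
            ((Nat.coprime_primes Nat.prime_two hℓ).2 (Ne.symm hℓ2))
        obtain ⟨a, b, hab⟩ := hc
        have h3 := congrArg (Int.cast : ℤ → κ) hab
        push_cast at h3
        rw [h2, hκ] at h3
        simp at h3
      have h0 : φ = 0 := hKZE d t hdt π h2 φ (hφ1 φ hφ)
      rw [h0, map_zero]
      exact Submodule.zero_mem _
    · refine ⟨FCU_LT π ℓ F k, n + 2, fun w hw => ?_, fun φ hφ => ?_⟩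
      · refine FCV_LT hdt hℓ π hκ hEVT hCBT hCEV hF k j (fun x hx => ?_) w hw
        rw [← hcls x hx, hχ x, one_mul]
      have hψ : IsSc π j (ℓ ^ 1) (evS φ) := hEVT d t hdt ℓ hℓ π hκ k 0 j χ hcls φ hφ
      refine ⟨((opT π ℓ F) ^ n) (bT π ℓ F j (evS φ)),
        ⟨bT π ℓ F j (evS φ), hBJH d t hdt ℓ hℓ F hF π hκ j _ hψ, rfl⟩, ?_⟩
      change bT π ℓ F k (evS (((opT π ℓ F) ^ n) (bT π ℓ F j (evS φ)))) = _
      rw [← FCU_ii hdt hℓ hF π hκ hFUA hFUD hEVT hTSU hBJH j hj _ hψ n,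
        ← FCU_iv hdt hℓ hF π hκ hFUA hFUD hEVT hTSU k hk φ (hφ1 φ hφ) (n + 1)]
      rw [op, if_pos rfl]
  · obtain ⟨r, rfl⟩ : ∃ r', r = r' + 1 := ⟨r - 1, by omega⟩
    refine ⟨FCU_LU π ℓ k, (n + 1 + r) + 1, fun w hw => ?_, fun φ hφ => ?_⟩
    · exact FCV_LU hdt hℓ π hκ hEVT hCBU hCEV k j w hw
    have hψ : IsSc π j (ℓ ^ (r + 1)) (evS φ) := by
      have h := hEVT d t hdt ℓ hℓ π hκ k (r + 1) j χ hcls φ hφ
      rwa [max_eq_left (by omega)] at h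
    have hψ' := FCU_low hdt hℓ π hκ hUSD j r _ hψ
    refine ⟨((opT π ℓ F) ^ n) (bT π ℓ F j ((uS ℓ)^[r] (evS φ))),
      ⟨bT π ℓ F j ((uS ℓ)^[r] (evS φ)), hBJH d t hdt ℓ hℓ F hF π hκ j _ hψ', rfl⟩, ?_⟩
    change bU π ℓ k (evS (((opT π ℓ F) ^ n) (bT π ℓ F j ((uS ℓ)^[r] (evS φ))))) = _
    rw [← FCU_ii hdt hℓ hF π hκ hFUA hFUD hEVT hTSU hBJH j hj _ hψ' n,
      ← Function.iterate_add_apply, ← FCU_iii π hκ hFUA k φ hφ.hom (n + 1 + r)]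
    rw [op, if_neg (by omega)]

end Pool.Agent.OE
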